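import Pool.Agent.H474.MS.Stm

/-! Project MS (helper474): statement `S_N6` (proof by helper30). -/

set_option autoImplicit false

open MeasureTheory Filter Topology Set

namespace Pool.Agent.H30.MS.N6

/-- conjugation as a bijection of a set closed under it -/
def cj (Z : Set ℂ) (hZ : ∀ ρ ∈ Z, (starRingEnd ℂ) ρ ∈ Z) : Z ≃ Z where
  toFun ρ := ⟨(starRingEnd ℂ) ρ, hZ _ ρ.2⟩
  invFun ρ := ⟨(starRingEnd ℂ) ρ, hZ _ ρ.2⟩
  left_inv ρ := Subtype.ext (Complex.conj_conj _)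
  right_inv ρ := Subtype.ext (Complex.conj_conj _)

theorem t_N6 : Pool.Agent.H474.MS.S_N6 := by
  intro Z hZ hne F hF T
  have h1 : ∀ ρ : Z, (if |(ρ : ℂ).im| ≤ T then F ρ else 0) =
      (if 0 < (ρ : ℂ).im ∧ (ρ : ℂ).im ≤ T then F ρ else 0) +
        (if (ρ : ℂ).im < 0 ∧ -(ρ : ℂ).im ≤ T then F ρ else 0) := by
    intro ρ
    rcases lt_or_gt_of_ne (hne ρ ρ.2) with h | h
    · have h2 : ¬ (0 < (ρ : ℂ).im ∧ (ρ : ℂ).im ≤ T) := fun h3 => absurd h3.1 (not_lt.2 h.le)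
      rw [if_neg h2, zero_add, abs_of_neg h]
      by_cases h4 : -(ρ : ℂ).im ≤ T
      · rw [if_pos h4, if_pos ⟨h, h4⟩]
      · rw [if_neg h4, if_neg fun h5 => h4 h5.2]
    · have h2 : ¬ ((ρ : ℂ).im < 0 ∧ -(ρ : ℂ).im ≤ T) := fun h3 => absurd h3.1 (not_lt.2 h.le)
      rw [if_neg h2, add_zero, abs_of_pos h]
      by_cases h4 : (ρ : ℂ).im ≤ T
      · rw [if_pos h4, if_pos ⟨h, h4⟩]
      · rw [if_neg h4, if_neg fun h5 => h4 h5.2]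
  have h2 : ∑' ρ : Z, (if (ρ : ℂ).im < 0 ∧ -(ρ : ℂ).im ≤ T then F ρ else 0) =
      ∑' ρ : Z, (if 0 < (ρ : ℂ).im ∧ (ρ : ℂ).im ≤ T then F ρ else 0) := by
    rw [← Equiv.tsum_eq (cj Z hZ)
      (fun ρ : Z => if (ρ : ℂ).im < 0 ∧ -(ρ : ℂ).im ≤ T then F ρ else 0)]
    refine tsum_congr fun ρ => ?_
    have h3 : ((cj Z hZ ρ : Z) : ℂ) = (starRingEnd ℂ) (ρ : ℂ) := rfl
    rw [h3, Complex.conj_im, neg_neg, hF _ ρ.2]
    by_cases h4 : 0 < (ρ : ℂ).im ∧ (ρ : ℂ).im ≤ T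
    · rw [if_pos h4, if_pos ⟨by linarith [h4.1], h4.2⟩]
    · rw [if_neg h4, if_neg fun h5 => h4 ⟨by linarith [h5.1], h5.2⟩]
  rw [tsum_congr h1, ENNReal.tsum_add, h2, two_mul]

end Pool.Agent.H30.MS.N6
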